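import Pool.Agent.Q296.TwoPt.Main

/-!
# Populations with two error sizes are not extremal

For `n = 2`, `m = 41/50` and `c = 9/10` a population of 95 items with three error sizes
(nine items of size 0, eighty-one of size 9/10, five of size 1) has `F(c) ≥ 1539/9025`, while every
population with the same mean error and at most two error sizes (whatever they are) has
`F(c) ≤ 344/2025 < 1539/9025`. So no population with two error sizes is a maximiser.
-/

namespace Pool.Agent.Results.MP_c8004b_pr.ThreeSizesBeatTwo

open Q296.TwoPt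

theorem result :
    ∃ (n : ℕ) (m c : ℝ), 1 ≤ n ∧ 0 < m ∧ m < 1 ∧ 0 < c ∧ c < n * m ∧
      ∃ (N : ℕ) (e : Fin N → ℝ), IsPopulation m e ∧
        ∀ (N' : ℕ) (e' : Fin N' → ℝ), IsPopulation m e' → (Set.range e').ncard ≤ 2 →
          F n c e' + 1 / 2000 ≤ F n c e := by
  refine ⟨2, 41 / 50, 9 / 10, by norm_num, by norm_num, by norm_num, by norm_num, by norm_num,
    95, pop, pop_isPopulation, ?_⟩
  intro N' e' he' h2
  have h3 := two_sizes e' he' h2
  have h4 := pop_F
  have h5 : (344 : ℝ) / 2025 + 1 / 2000 ≤ 1539 / 9025 := by norm_num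
  linarith

end Pool.Agent.Results.MP_c8004b_pr.ThreeSizesBeatTwo
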